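import Mathlib

/-! An intertwining identity for two recursions. -/

namespace Pool.Agent.W5h82.Lim

variable {K : Type*} [CommRing K]

def JJ (r : K) (v : ℕ → K) (h : ℕ) : K :=
  r ^ (h + 1) * v (h + 1) + r ^ h * v h + (if h = 0 then 0 else v (h - 1))

def yh (q r : K) (s : ℕ) : ℕ → ℕ → K
  | 0 => fun h => if h = 0 then 1 else 0
  | n + 1 => fun h => yh q r s n h + q ^ (s + n + 1) * JJ r (yh q r s n) h

def Z (q r : K) : ℕ → ℕ → ℕ → ℕ → K
  | 0, s, n, h => yh q r s n h
  | j + 1, s, n, h => Z q r j (s + 1) n (h + 1) + q ^ (s + 1) * (1 - q ^ n) * Z q r j (s + 1) (n - 1) h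

lemma JJ_lin (r c : K) (u v : ℕ → K) (h : ℕ) :
    JJ r (fun h => u h + c * v h) h = JJ r u h + c * JJ r v h := by
  unfold JJ
  split_ifs <;> ring

lemma yh_front (q r : K) (s n h : ℕ) :
    yh q r s (n + 1) h = yh q r (s + 1) n h + q ^ (s + 1) * JJ r (yh q r (s + 1) n) h := by
  induction n generalizing h with
  | zero => rfl
  | succ n ih =>
    have h1 : yh q r s (n + 1) =
        fun h => yh q r (s + 1) n h + q ^ (s + 1) * JJ r (yh q r (s + 1) n) h := funext ih
    have h2 : yh q r (s + 1) (n + 1) =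
        fun h => yh q r (s + 1) n h + q ^ (s + 1 + n + 1) * JJ r (yh q r (s + 1) n) h := rfl
    have h3 : yh q r s (n + 1 + 1) h =
        yh q r s (n + 1) h + q ^ (s + (n + 1) + 1) * JJ r (yh q r s (n + 1)) h := rfl
    rw [h3, h1, h2]
    beta_reduce
    rw [JJ_lin, JJ_lin]
    ring

lemma L1_zero (q r : K) (s n h : ℕ) :
    yh q r (s + 1) n h = (1 - q ^ n) * yh q r (s + 1) (n - 1) h + q ^ n * yh q r s n h := by
  cases n with
  | zero => simp [yh]
  | succ n =>
    rw [yh_front q r s n h, Nat.add_sub_cancel]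
    change yh q r (s + 1) n h + q ^ (s + 1 + n + 1) * JJ r (yh q r (s + 1) n) h = _
    ring

lemma L1 (q r : K) (j s n h : ℕ) :
    Z q r j (s + 1) n h = (1 - q ^ n) * Z q r j (s + 1) (n - 1) h + q ^ n * Z q r j s n h := by
  induction j generalizing s n h with
  | zero => exact L1_zero q r s n h
  | succ j ih =>
    simp only [Z]
    cases n with
    | zero =>
      have h1 := ih (s + 1) 0 (h + 1)
      simp only [pow_zero, sub_self, mul_zero, zero_mul, add_zero, one_mul, zero_add] at *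
      exact h1
    | succ n =>
      have h1 := ih (s + 1) (n + 1) (h + 1)
      have h2 := ih (s + 1) n h
      simp only [Nat.add_sub_cancel] at *
      linear_combination h1 + q ^ (s + 1 + 1) * (1 - q ^ (n + 1)) * h2

lemma NN (q r : K) (hqr : q * r = 1) (j s n h : ℕ) :
    Z q r j s (n + 1) (h + 1) = Z q r j s n (h + 1) + q ^ (s + n + 1) *
      (r ^ (h + 2) * Z q r j s n (h + 2) + r ^ (h + 1) * Z q r j s n (h + 1) + Z q r j s n h) := by
  induction j generalizing s n h with
  | zero =>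
    simp only [Z]
    change yh q r s n (h + 1) + q ^ (s + n + 1) * JJ r (yh q r s n) (h + 1) = _
    simp [JJ]
  | succ j ih =>
    simp only [Z]
    cases n with
    | zero =>
      have h1 := ih (s + 1) 0 (h + 1)
      simp only [pow_zero, sub_self, mul_zero, zero_mul, add_zero, zero_add, Nat.add_sub_cancel,
        Nat.zero_sub] at *
      linear_combination h1 + (q ^ (s + 1) * r ^ (h + 2) * Z q r j (s + 1) 0 (h + 1 + 2)
        + q ^ (s + 1) * r ^ (h + 1) * Z q r j (s + 1) 0 (h + 1 + 1)) * hqr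
    | succ n =>
      have h1 := ih (s + 1) (n + 1) (h + 1)
      have h2 := ih (s + 1) n h
      simp only [Nat.add_sub_cancel] at *
      linear_combination h1 + q ^ (s + 1) * (1 - q ^ (n + 1)) * h2 +
        (q ^ (s + n + 2) * r ^ (h + 2) * Z q r j (s + 1) (n + 1) (h + 1 + 2)
        + q ^ (s + n + 2) * r ^ (h + 1) * Z q r j (s + 1) (n + 1) (h + 1 + 1)) * hqr

def DD (q r : K) (j s n : ℕ) : K :=
  Z q r j s (n + 1) 0 - Z q r j s n 0 - q ^ (s + n + 1) * (Z q r j s n 0 + r * Z q r j s n 1)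

lemma DD_zero (q r : K) (s n : ℕ) : DD q r 0 s n = 0 := by
  unfold DD
  simp only [Z]
  change yh q r s n 0 + q ^ (s + n + 1) * JJ r (yh q r s n) 0 - _ - _ = 0
  simp [JJ]
  ring

lemma DD_succ (q r : K) (hqr : q * r = 1) (j s n : ℕ) :
    DD q r (j + 1) s n = q ^ (s + n + 1) * Z q r j (s + 1) n 0 +
      q ^ (s + 1) * (1 - q ^ n) * DD q r j (s + 1) (n - 1) := by
  unfold DD
  simp only [Z]
  cases n with
  | zero =>
    have h1 := NN q r hqr j (s + 1) 0 0
    simp only [pow_zero, sub_self, mul_zero, zero_mul, add_zero, zero_add, Nat.add_sub_cancel,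
        Nat.zero_sub] at *
    linear_combination h1 + (q ^ (s + 1) * r * Z q r j (s + 1) 0 2
        + q ^ (s + 1) * Z q r j (s + 1) 0 1) * hqr
  | succ n =>
    have h1 := NN q r hqr j (s + 1) (n + 1) 0
    simp only [Nat.add_sub_cancel, zero_add, pow_one] at *
    linear_combination h1 + (q ^ (s + n + 2) * r * Z q r j (s + 1) (n + 1) 2
        + q ^ (s + n + 2) * Z q r j (s + 1) (n + 1) 1) * hqr

lemma R1 (q r : K) (j n h : ℕ) :
    Z q r (j + 1) 0 n h = (1 - q ^ n) * Z q r (j + 1) 0 (n - 1) h +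
      q ^ n * (Z q r j 0 n (h + 1) + (1 - q ^ n) * Z q r j 0 (n - 1) h) := by
  simp only [Z]
  have h1 := L1 q r j 0 n (h + 1)
  have h2 := L1 q r j 0 (n - 1) h
  cases n with
  | zero =>
    simp only [pow_zero, sub_self, mul_zero, zero_mul, add_zero, zero_add, one_mul] at *
    exact h1
  | succ n =>
    simp only [Nat.add_sub_cancel, zero_add, pow_one] at *
    linear_combination h1 + q * (1 - q ^ (n + 1)) * h2

def x1 (q r : K) (n h : ℕ) : K := Z q r h 0 n 0

def x0 (q r : K) (n h : ℕ) : K :=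
  Z q r h 0 n 0 - (1 - q ^ n) * (Z q r (h + 1) 0 (n - 1) 0 + q ^ n * Z q r h 0 (n - 1) 0)

lemma x1_zero (q r : K) (h : ℕ) : x1 q r 0 h = if h = 0 then 1 else 0 := by
  have key : ∀ j s h, Z q r j s 0 h = if j + h = 0 then 1 else 0 := by
    intro j
    induction j with
    | zero => intro s h; simp [Z, yh]
    | succ j ih =>
      intro s h
      simp only [Z, ih]
      simp
  unfold x1
  rw [key]
  simp

lemma x0_zero (q r : K) (h : ℕ) : x0 q r 0 h = if h = 0 then 1 else 0 := by
  have := x1_zero q r h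
  unfold x1 at this
  unfold x0
  rw [this]
  simp

lemma x_main (q r : K) (hqr : q * r = 1) (n h : ℕ) :
    x1 q r (n + 1) h = x0 q r n h + x1 q r n (h + 1) +
      q ^ (n + 1) * ((if h = 0 then 0 else x0 q r n (h - 1)) + x1 q r n h) := by
  unfold x1 x0
  cases h with
  | zero =>
    have h0 := DD_zero q r 0 n
    have h1 := R1 q r 0 n 0
    unfold DD at h0
    simp only [zero_add, if_true] at *
    linear_combination h0 - h1 + q ^ n * Z q r 0 0 n 1 * hqr
  | succ j =>
    have h0 := DD_succ q r hqr j 0 n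
    have h1 := R1 q r (j + 1) n 0
    have h2 := L1 q r j 0 n 0
    rw [if_neg (Nat.succ_ne_zero j), Nat.add_sub_cancel]
    unfold DD at h0
    cases n with
    | zero =>
      simp only [pow_zero, sub_self, mul_zero, zero_mul, add_zero, zero_add, one_mul] at *
      linear_combination h0 - h1 + Z q r (j + 1) 0 0 1 * hqr + q * h2
    | succ n =>
      have h3 := L1 q r j 0 n 0
      have h4 : Z q r (j + 1) 0 n 0 = Z q r j 1 n 1 + q * (1 - q ^ n) * Z q r j 1 (n - 1) 0 := by
        simp only [Z, zero_add, pow_one]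
      simp only [Nat.add_sub_cancel, zero_add, pow_one] at *
      linear_combination h0 - h1 + q ^ (n + 1) * Z q r (j + 1) 0 (n + 1) 1 * hqr + q * h2 +
        q ^ (n + 2) * (1 - q ^ (n + 1)) * h4 - q ^ (n + 3) * (1 - q ^ (n + 1)) * h3 -
        q ^ (n + 2) * (1 - q ^ (n + 1)) * Z q r j 1 n 1 * hqr

end Pool.Agent.W5h82.Lim
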