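import Pool.Agent.W5h82.Lim.Perm

/-! Counting 1243-avoiding permutations by inversions. -/

open Finset Equiv

namespace Pool.Agent.W5h82.Lim

open Classical in
/-- the permutations of `Fin n` with the three conditions and `k` inversions -/
noncomputable def N (n c d k : ℕ) : ℕ :=
  (univ.filter (fun π : Perm (Fin n) => Avoids π ∧ B c π ∧ C d π ∧ inv π = k)).card

/-- the terms of the recursion -/
noncomputable def T (f : ℕ → ℕ → ℕ → ℤ) (c d k e : ℕ) : ℤ :=
  if e ≤ k then
    if e < c then f e (d - 1) (k - e)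
    else if e < d then f c e (k - e)
    else if e = d then f c d (k - e) else 0
  else 0

lemma cond_cons {n : ℕ} (e : Fin (n + 1)) (σ : Perm (Fin n)) {c d k : ℕ} (hcd : c ≤ d) :
    (Avoids (consPerm e σ) ∧ B c (consPerm e σ) ∧ C d (consPerm e σ) ∧ inv (consPerm e σ) = k) ↔
      (e : ℕ) ≤ k ∧
      (if (e : ℕ) < c then Avoids σ ∧ B e σ ∧ C (d - 1) σ ∧ inv σ = k - e
       else if (e : ℕ) < d then Avoids σ ∧ B c σ ∧ C e σ ∧ inv σ = k - e
       else if (e : ℕ) = d then Avoids σ ∧ B c σ ∧ C d σ ∧ inv σ = k - e else False) := by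
  rw [avoids_cons, inv_cons]
  have hk : ((e : ℕ) + inv σ = k) ↔ (e : ℕ) ≤ k ∧ inv σ = k - e := by omega
  rw [hk]
  split_ifs with h1 h2 h3
  · rw [B_cons_lt e σ h1, C_cons_lt e σ (h1.trans_le hcd)]
    constructor
    · rintro ⟨⟨a, b⟩, _, c, d, e⟩
      exact ⟨d, a, b, c, e⟩
    · rintro ⟨d, a, b, c, e⟩
      exact ⟨⟨a, b⟩, B_mono (by omega) b, c, d, e⟩
  · rw [B_cons_ge e σ (not_lt.1 h1), C_cons_lt e σ h2]
    constructor
    · rintro ⟨⟨a, _⟩, ⟨b, c⟩, _, d, e⟩
      exact ⟨d, a, b, c, e⟩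
    · rintro ⟨d, a, b, c, e⟩
      exact ⟨⟨a, B_mono (not_lt.1 h1) b⟩, ⟨b, c⟩, C_mono (by omega) c, d, e⟩
  · rw [B_cons_ge e σ (not_lt.1 h1), C_cons_eq e σ h3]
    constructor
    · rintro ⟨⟨a, _⟩, ⟨b, _⟩, c, d, e⟩
      exact ⟨d, a, b, c, e⟩
    · rintro ⟨d, a, b, c, e⟩
      exact ⟨⟨a, B_mono (not_lt.1 h1) b⟩, ⟨b, h3 ▸ c⟩, c, d, e⟩
  · constructor
    · rintro ⟨_, _, c, _⟩
      exact absurd c (C_cons_gt e σ (by omega))
    · rintro ⟨_, h⟩
      exact h.elim

open Classical in
lemma N_succ (n c d k : ℕ) (hcd : c ≤ d) :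
    (N (n + 1) c d k : ℤ) = ∑ e ∈ range (n + 1), T (fun c d k => (N n c d k : ℤ)) c d k e := by
  have h : N (n + 1) c d k = (univ.filter (fun p : Fin (n + 1) × Perm (Fin n) =>
      Avoids (consPerm p.1 p.2) ∧ B c (consPerm p.1 p.2) ∧ C d (consPerm p.1 p.2) ∧
        inv (consPerm p.1 p.2) = k)).card := by
    unfold N
    symm
    apply card_bij (fun p _ => consPerm p.1 p.2)
    · intro p hp
      simpa using hp
    · intro p _ p' _ hpp
      exact consPerm_bij.1 hpp
    · intro π hπ
      obtain ⟨p, hp⟩ := consPerm_bij.2 π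
      refine ⟨p, ?_, hp⟩
      simp only at hp
      simpa [hp] using hπ
  rw [h, ← Fin.sum_univ_eq_sum_range, card_filter, Fintype.sum_prod_type]
  push_cast
  apply sum_congr rfl
  intro e _
  simp only [cond_cons e _ hcd, T, N]
  by_cases h0 : (e : ℕ) ≤ k
  · by_cases h1 : (e : ℕ) < c
    · simp [h0, h1]
    · by_cases h2 : (e : ℕ) < d
      · simp [h0, h1, h2]
      · by_cases h3 : (e : ℕ) = d
        · have h4 : d ≤ k := h3 ▸ h0
          have h5 : ¬ d < c := by omega
          simp [h3, h4, h5]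
        · simp [h1, h2, h3]
  · simp [h0]

open PowerSeries in
/-- the recursion for the two-parameter family of series -/
def IsG (G : ℕ → ℕ → ℤ⟦X⟧) : Prop :=
  G 0 0 = 1 ∧ ∀ c d : ℕ, c ≤ d → 1 ≤ d →
    (1 - X ^ d) * G c d =
      ∑ e ∈ range c, X ^ e * G e (d - 1) + ∑ e ∈ Ico c d, X ^ e * G c e

open PowerSeries in
lemma coeff_G {G : ℕ → ℕ → ℤ⟦X⟧} (hG : IsG G) {c d : ℕ} (hcd : c ≤ d) (hd : 1 ≤ d) (k : ℕ) :
    coeff k (G c d) = ∑ e ∈ range (d + 1), T (fun c d k => coeff k (G c d)) c d k e := by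
  have h := hG.2 c d hcd hd
  have h2 : G c d = ∑ e ∈ range c, X ^ e * G e (d - 1) + ∑ e ∈ Ico c d, X ^ e * G c e
      + X ^ d * G c d := by
    rw [← h]; ring
  have h3 := congrArg (coeff k) h2
  rw [h3, map_add, map_add, map_sum, map_sum, sum_range_succ,
    ← sum_range_add_sum_Ico _ hcd]
  congr 1
  · congr 1
    · apply sum_congr rfl
      intro e he
      rw [mem_range] at he
      rw [coeff_X_pow_mul', T, if_pos he]
    · apply sum_congr rfl
      intro e he
      rw [mem_Ico] at he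
      rw [coeff_X_pow_mul', T, if_neg (not_lt.2 he.1), if_pos he.2]
  · rw [coeff_X_pow_mul', T, if_neg (not_lt.2 hcd), if_neg (lt_irrefl d), if_pos rfl]

lemma T_zero (f : ℕ → ℕ → ℕ → ℤ) {c d k e : ℕ} (hcd : c ≤ d) (h : k < e ∨ d < e) :
    T f c d k e = 0 := by
  unfold T
  split_ifs <;> first | rfl | omega

lemma sum_T (f : ℕ → ℕ → ℕ → ℤ) {c d k m m' : ℕ} (hcd : c ≤ d)
    (h : k ≤ m ∨ d ≤ m) (h' : k ≤ m' ∨ d ≤ m') :
    ∑ e ∈ range (m + 1), T f c d k e = ∑ e ∈ range (m' + 1), T f c d k e := by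
  have key : ∀ m : ℕ, (k ≤ m ∨ d ≤ m) →
      ∑ e ∈ range (m + 1), T f c d k e = ∑ e ∈ range (k + d + m + 1), T f c d k e := by
    intro m hm
    apply sum_subset
    · intro e he
      rw [mem_range] at *
      omega
    · intro e _ he
      rw [mem_range] at he
      exact T_zero f hcd (by omega)
  have key2 : ∀ m : ℕ, (k ≤ m ∨ d ≤ m) →
      ∑ e ∈ range (k + d + 1), T f c d k e = ∑ e ∈ range (k + d + m + 1), T f c d k e := by
    intro m hm
    apply sum_subset
    · intro e he
      rw [mem_range] at *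
      omega
    · intro e _ he
      rw [mem_range] at he
      exact T_zero f hcd (by omega)
  rw [key m h, key m' h', ← key2 m h, ← key2 m' h']

open Classical in
lemma N_zero (k : ℕ) : (N 0 0 0 k : ℤ) = if k = 0 then 1 else 0 := by
  unfold N
  rw [card_filter]
  have : (univ : Finset (Perm (Fin 0))) = {1} := by
    ext x; simp [Subsingleton.elim x 1]
  rw [this, sum_singleton]
  have hA : Avoids (1 : Perm (Fin 0)) := by rintro ⟨a, _⟩; exact a.elim0
  have hB : B 0 (1 : Perm (Fin 0)) := fun i => i.elim0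
  have hC : C 0 (1 : Perm (Fin 0)) := fun i => i.elim0
  have hi : inv (1 : Perm (Fin 0)) = 0 := by unfold inv; simp
  simp [hA, hB, hC, hi, eq_comm]

lemma N_zz (n k : ℕ) : (N n 0 0 k : ℤ) = if k = 0 then 1 else 0 := by
  induction n generalizing k with
  | zero => exact N_zero k
  | succ n ih =>
    rw [N_succ n 0 0 k le_rfl, sum_T (m' := 0) _ le_rfl (Or.inr (Nat.zero_le _)) (Or.inr le_rfl)]
    simp [T, ih]

open PowerSeries in
lemma N_eq {G : ℕ → ℕ → ℤ⟦X⟧} (hG : IsG G) (n c d k : ℕ) (hcd : c ≤ d)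
    (h : (c = 0 ∧ d = 0) ∨ k + 1 + (if c = 0 then 0 else 1) ≤ n) :
    (N n c d k : ℤ) = coeff k (G c d) := by
  induction n generalizing c d k with
  | zero =>
    rcases h with ⟨rfl, rfl⟩ | h
    · rw [N_zz, hG.1, coeff_one]
    · split_ifs at h <;> omega
  | succ n ih =>
    rcases Nat.eq_zero_or_pos d with rfl | hd
    · obtain rfl : c = 0 := by omega
      rw [N_zz, hG.1, coeff_one]
    · have h' : k + 1 + (if c = 0 then 0 else 1) ≤ n + 1 := by
        rcases h with ⟨_, h⟩ | h
        · omega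
        · exact h
      have hk : k ≤ n := by split_ifs at h' <;> omega
      rw [N_succ n c d k hcd, coeff_G hG hcd hd,
        sum_T (m' := d) _ hcd (Or.inl hk) (Or.inr le_rfl)]
      apply sum_congr rfl
      intro e _
      unfold T
      beta_reduce
      split_ifs with h0 h1 h2 h3
      · rw [ih e (d - 1) (k - e) (by omega)]
        by_cases he : e = 0
        · right
          rw [if_pos he]
          rw [if_neg (by omega)] at h'
          omega
        · right
          rw [if_neg he]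
          rw [if_neg (by omega)] at h'
          omega
      · rw [ih c e (k - e) (by omega)]
        by_cases he : e = 0
        · left; omega
        · right; split_ifs at h' ⊢ <;> omega
      · rw [ih c d (k - e) hcd]
        right; split_ifs at h' ⊢ <;> omega
      · rfl
      · rfl

/-- in a permutation whose entries avoid 132, the bottom of an inversion is below `inv` -/
lemma bot_132 {n : ℕ} (π : Perm (Fin n)) (hB : B 0 π) (i j : Fin n) (hij : i < j)
    (h : π j < π i) : (π j : ℕ) + 1 ≤ inv π := by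
  induction n with
  | zero => exact i.elim0
  | succ n ih =>
    obtain ⟨⟨e, σ⟩, rfl⟩ := consPerm_bij.2 π
    simp only at *
    rw [inv_cons]
    rw [B_cons_ge e σ (Nat.zero_le _)] at hB
    obtain ⟨j, rfl⟩ := Fin.exists_succ_eq.2 (ne_of_gt (lt_of_le_of_lt (Fin.zero_le i) hij))
    rcases Fin.eq_zero_or_eq_succ i with rfl | ⟨i, rfl⟩
    · rw [consPerm_zero, Fin.lt_def] at h
      omega
    · simp only [consPerm_succ, succAbove_lt_iff, Fin.succ_lt_succ_iff] at h hij
      have h1 := ih σ hB.1 i j hij h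
      have h2 : (σ j : ℕ) < e := by
        by_contra hc
        exact hB.2 i j hij (not_lt.1 hc) h
      rw [consPerm_succ, succAbove_val, if_pos h2]
      omega

/-- in a permutation that avoids 1243, the bottom of an inversion is at most `inv` -/
lemma bot_1243 {n : ℕ} (π : Perm (Fin n)) (hA : Avoids π) (i j : Fin n) (hij : i < j)
    (h : π j < π i) : (π j : ℕ) ≤ inv π := by
  induction n with
  | zero => exact i.elim0
  | succ n ih =>
    obtain ⟨⟨e, σ⟩, rfl⟩ := consPerm_bij.2 π
    simp only at *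
    rw [inv_cons]
    rw [avoids_cons] at hA
    obtain ⟨j, rfl⟩ := Fin.exists_succ_eq.2 (ne_of_gt (lt_of_le_of_lt (Fin.zero_le i) hij))
    rcases Fin.eq_zero_or_eq_succ i with rfl | ⟨i, rfl⟩
    · rw [consPerm_zero, Fin.lt_def] at h
      omega
    · simp only [consPerm_succ, succAbove_lt_iff, Fin.succ_lt_succ_iff] at h hij
      rw [consPerm_succ, succAbove_val]
      by_cases h0 : (e : ℕ) = 0
      · have h1 := bot_132 σ (h0 ▸ hA.2) i j hij h
        split_ifs <;> omega
      · have h1 := ih σ hA.1 i j hij h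
        split_ifs <;> omega

open Classical in
/-- the count of 1243-avoiding permutations of length `n` with `k` inversions -/
noncomputable def av (n k : ℕ) : ℕ :=
  (univ.filter (fun π : Perm (Fin n) => Avoids π ∧ inv π = k)).card

open Classical in
lemma av_eq_N (n k M : ℕ) (hM : k < M) : av n k = N n M M k := by
  unfold av N
  congr 1
  apply filter_congr
  intro π _
  constructor
  · rintro ⟨hA, hk⟩
    have hC : C M π := by
      intro i j hij hc h
      have := bot_1243 π hA i j hij h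
      omega
    exact ⟨hA, C_B hC, hC, hk⟩
  · rintro ⟨hA, _, _, hk⟩
    exact ⟨hA, hk⟩

open PowerSeries in
/-- the main count -/
theorem av_eq {G : ℕ → ℕ → ℤ⟦X⟧} (hG : IsG G) (n k M : ℕ) (hM : k < M) (hn : k + 2 ≤ n) :
    (av n k : ℤ) = coeff k (G M M) := by
  rw [av_eq_N n k M hM]
  apply N_eq hG n M M k le_rfl
  right
  split_ifs <;> omega

end Pool.Agent.W5h82.Lim
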