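import Pool.Agent.W5h82.Lim.Val
import Pool.Agent.W5h82.Lim.Alg

/-! The closed formula with q-Motzkin polynomials. -/

open Finset PowerSeries

namespace Pool.Agent.W5h82.Lim

/-- weighted paths with steps up, flat, down from `0` to `h` -/
noncomputable def mot : ℕ → ℕ → ℤ⟦X⟧
  | 0, h => if h = 0 then 1 else 0
  | b + 1, 0 => X ^ (b + 1) * (mot b 0 + mot b 1)
  | b + 1, h + 1 => X ^ (b - h) * (mot b h + mot b (h + 1)) + X ^ (b + 1) * mot b (h + 2)

lemma mot_vanish (b h : ℕ) (hb : b < h) : mot b h = 0 := by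
  induction b generalizing h with
  | zero => simp [mot]; omega
  | succ b ih =>
    obtain ⟨g, rfl⟩ : ∃ g, h = g + 1 := ⟨h - 1, by omega⟩
    simp only [mot]
    rw [ih g (by omega), ih (g + 1) (by omega), ih (g + 2) (by omega)]
    simp

lemma mot_dvd (b : ℕ) : X ^ b ∣ mot b 0 := by
  cases b with
  | zero => simp
  | succ b => exact ⟨_, rfl⟩

noncomputable def UU (n h : ℕ) : ℤ⟦X⟧ := ∑ b ∈ range (n + 1), Iq b * Iq (n - b) * mot b h

lemma UU_vanish (n h : ℕ) (hn : n < h) : UU n h = 0 := by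
  unfold UU
  apply sum_eq_zero
  intro b hb
  rw [mem_range] at hb
  rw [mot_vanish b h (by omega), mul_zero]

lemma UU_step (n h : ℕ) : (1 - X ^ (n + 1)) * UU (n + 1) h =
    UU n h + ∑ b ∈ range (n + 1), X ^ (n - b) * (Iq b * Iq (n - b) * mot (b + 1) h) := by
  have h1 : (1 - X ^ (n + 1)) * UU (n + 1) h =
      ∑ b ∈ range (n + 1 + 1), (1 - X ^ (n + 1 - b)) * (Iq b * Iq (n + 1 - b) * mot b h) +
      ∑ b ∈ range (n + 1 + 1), X ^ (n + 1 - b) * (1 - X ^ b) * (Iq b * Iq (n + 1 - b) * mot b h) := by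
    unfold UU
    rw [mul_sum, ← sum_add_distrib]
    apply sum_congr rfl
    intro b hb
    rw [mem_range] at hb
    have : (X : ℤ⟦X⟧) ^ (n + 1) = X ^ (n + 1 - b) * X ^ b := by
      rw [← pow_add]; congr 1; omega
    rw [this]
    ring
  rw [h1]
  congr 1
  · rw [sum_range_succ, Nat.sub_self]
    simp only [pow_zero, sub_self, zero_mul, add_zero]
    unfold UU
    apply sum_congr rfl
    intro b hb
    rw [mem_range] at hb
    have e : n + 1 - b = n - b + 1 := by omega
    rw [e]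
    linear_combination Iq b * mot b h * Iq_succ (n - b)
  · rw [sum_range_succ']
    simp only [pow_zero, sub_self, mul_zero, zero_mul, add_zero]
    apply sum_congr rfl
    intro b hb
    rw [Nat.add_sub_add_right]
    linear_combination X ^ (n - b) * Iq (n - b) * mot (b + 1) h * Iq_succ b

lemma UU_succ_zero (n : ℕ) : (1 - X ^ (n + 1)) * UU (n + 1) 0 =
    UU n 0 + X ^ (n + 1) * (UU n 0 + UU n 1) := by
  rw [UU_step]
  congr 1
  unfold UU
  rw [← sum_add_distrib, mul_sum]
  apply sum_congr rfl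
  intro b hb
  rw [mem_range] at hb
  have : (X : ℤ⟦X⟧) ^ (n + 1) = X ^ (n - b) * X ^ (b + 1) := by
    rw [← pow_add]; congr 1; omega
  rw [this, mot]
  ring

lemma UU_succ_succ (n h : ℕ) : (1 - X ^ (n + 1)) * UU (n + 1) (h + 1) =
    UU n (h + 1) + (X ^ (n - h) * (UU n h + UU n (h + 1)) + X ^ (n + 1) * UU n (h + 2)) := by
  rw [UU_step]
  congr 1
  unfold UU
  rw [← sum_add_distrib, mul_sum, mul_sum, ← sum_add_distrib]
  apply sum_congr rfl
  intro b hb
  rw [mem_range] at hb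
  have e1 : (X : ℤ⟦X⟧) ^ (n + 1) = X ^ (n - b) * X ^ (b + 1) := by
    rw [← pow_add]; congr 1; omega
  rw [e1]
  simp only [mot]
  by_cases hbh : h ≤ b
  · have e2 : (X : ℤ⟦X⟧) ^ (n - h) = X ^ (n - b) * X ^ (b - h) := by
      rw [← pow_add]; congr 1; omega
    rw [e2]
    ring
  · rw [mot_vanish b h (by omega), mot_vanish b (h + 1) (by omega)]
    ring

/-- `(1 - X) ⋯ (1 - X ^ n)` -/
noncomputable def qf (n : ℕ) : ℤ⟦X⟧ := ∏ i ∈ range n, (1 - X ^ (i + 1))

lemma qf_succ (n : ℕ) : qf (n + 1) = qf n * (1 - X ^ (n + 1)) := by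
  unfold qf; rw [prod_range_succ]

lemma qf_Iq (n : ℕ) : qf n * Iq n = 1 := by
  induction n with
  | zero => simp [qf, Iq]
  | succ n ih =>
    rw [qf_succ, mul_assoc, Iq_succ, ih]

def tri : ℕ → ℕ
  | 0 => 0
  | h + 1 => tri h + (h + 1)

section
variable {K : Type*} [CommRing K] (φ : ℤ⟦X⟧ →+* K) (r : K) (hr : φ X * r = 1)
include hr

lemma yh_UU (n h : ℕ) : yh (φ X) r 0 n h = φ X ^ tri h * φ (qf n * UU n h) := by
  induction n generalizing h with
  | zero =>
    unfold yh
    by_cases hh : h = 0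
    · subst hh
      simp [tri, qf, UU, mot, Iq]
    · rw [if_neg hh, UU_vanish 0 h (by omega)]
      simp
  | succ n ih =>
    have e : yh (φ X) r 0 (n + 1) h =
        yh (φ X) r 0 n h + φ X ^ (0 + n + 1) * JJ r (yh (φ X) r 0 n) h := rfl
    rw [e, qf_succ, mul_assoc]
    cases h with
    | zero =>
      rw [UU_succ_zero]
      unfold JJ
      rw [ih, ih]
      simp only [tri, map_mul, map_add, map_pow, if_true]
      simp only [zero_add, pow_zero, pow_one, one_mul, add_zero]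
      linear_combination φ X ^ (n + 1) * φ (qf n) * φ (UU n 1) * hr
    | succ h =>
      rw [UU_succ_succ]
      unfold JJ
      rw [ih, ih, if_neg (Nat.succ_ne_zero h), Nat.add_sub_cancel, ih]
      simp only [tri, map_mul, map_add, map_pow]
      have hp : ∀ m : ℕ, φ X ^ m * r ^ m = 1 := by
        intro m; rw [← mul_pow, hr, one_pow]
      by_cases hn : h ≤ n
      · obtain ⟨m, rfl⟩ := Nat.exists_eq_add_of_le hn
        rw [Nat.add_sub_cancel_left]
        linear_combination φ X ^ (h + m + 1) * φ X ^ (tri h + (h + 1)) * φ (qf (h + m)) *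
            φ (UU (h + m) (h + 2)) * hp (h + 2) +
          φ X ^ m * φ X ^ (tri h + (h + 1)) * φ (qf (h + m)) * φ (UU (h + m) (h + 1)) * hp (h + 1)
      · rw [UU_vanish n (h + 1) (by omega), UU_vanish n h (by omega), UU_vanish n (h + 1 + 1) (by omega)]
        simp

lemma P_x (n h : ℕ) : φ (P n true (h + 1)) = x1 (φ X) r n h ∧
    φ (P n false (h + 1)) = x0 (φ X) r n h := by
  induction n generalizing h with
  | zero =>
    rw [x1_zero, x0_zero, P_zero, P_zero]
    by_cases hh : h = 0 <;> simp [hh]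
  | succ n ih =>
    have key : ∀ b, φ (P (n + 1) b (h + 1)) = x0 (φ X) r n h +
        (if b then 1 else φ X ^ (n + 1)) * x1 (φ X) r n (h + 1) +
        φ X ^ (n + 1) * ((if h = 0 then 0 else x0 (φ X) r n (h - 1)) +
          (if b then 1 else φ X ^ (n + 1)) * x1 (φ X) r n h) := by
      intro b
      rw [P_succ, W_succ, W_succ, W_zero, W_zero, W_zero, W_zero]
      have h0 : φ (P n false h) = if h = 0 then 0 else x0 (φ X) r n (h - 1) := by
        cases h with
        | zero => rw [P_z]; simp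
        | succ h => rw [(ih h).2]; simp
      simp only [map_add, map_mul, map_pow, h0, (ih h).1, (ih h).2, (ih (h + 1)).1, add_zero,
        apply_ite φ, map_one]
    have hm := x_main (φ X) r hr n h
    constructor
    · rw [key true, hm]
      simp
    · rw [key false]
      have : x0 (φ X) r (n + 1) h = x1 (φ X) r (n + 1) h -
          (1 - φ X ^ (n + 1)) * (x1 (φ X) r n (h + 1) + φ X ^ (n + 1) * x1 (φ X) r n h) := by
        unfold x0 x1
        rw [Nat.add_sub_cancel]
      rw [this, hm]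
      simp only [Bool.false_eq_true, if_false]
      ring

end

theorem P_eq (n : ℕ) : P n true 1 = qf n * UU n 0 := by
  have hinj : Function.Injective (algebraMap ℤ⟦X⟧ (FractionRing ℤ⟦X⟧)) :=
    IsFractionRing.injective _ _
  apply hinj
  set φ := algebraMap ℤ⟦X⟧ (FractionRing ℤ⟦X⟧) with hφ
  have hX : φ X ≠ 0 := by
    intro h
    have : (X : ℤ⟦X⟧) = 0 := hinj (by rw [h, map_zero])
    exact X_ne_zero this
  have hr : φ X * (φ X)⁻¹ = 1 := mul_inv_cancel₀ hX
  have h1 := (P_x φ _ hr n 0).1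
  have h2 := yh_UU φ _ hr n 0
  have h3 : x1 (φ X) (φ X)⁻¹ n 0 = yh (φ X) (φ X)⁻¹ 0 n 0 := rfl
  rw [h1, h3, h2]
  simp [tri]

theorem av_eq_UU (n k m : ℕ) (hm : k ≤ m) (hn : k + 2 ≤ n) :
    (av n k : ℤ) = coeff k (II (m + 1) * UU m 0) := by
  rw [av_eq_P n k m hm hn, P_eq]
  congr 1
  have h1 := qf_Iq m
  have h2 : Iq (m + 1) = Iq m * II (m + 1) := by unfold Iq; rw [prod_range_succ]
  rw [h2]
  linear_combination UU m 0 * II (m + 1) * h1

lemma Iq_cong (a j : ℕ) : X ^ (a + 1) ∣ Iq (a + j) - Iq a := by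
  induction j with
  | zero => simp
  | succ j ih =>
    have h1 := Iq_succ (a + j)
    have h2 : Iq (a + (j + 1)) - Iq a = (Iq (a + j) - Iq a) + X ^ (a + 1) * (X ^ j * Iq (a + j + 1)) := by
      rw [← add_assoc]
      linear_combination h1
    rw [h2]
    exact dvd_add ih ⟨_, rfl⟩

theorem av_final (n k m : ℕ) (hm : k ≤ m) (hn : k + 2 ≤ n) :
    (av n k : ℤ) = coeff k (Iq m * ∑ b ∈ range (m + 1), mot b 0 * Iq b) := by
  rw [av_eq_UU n k m hm hn]
  have h1 : X ^ (m + 1) ∣ II (m + 1) * UU m 0 - UU m 0 := by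
    have := II_mul (m + 1) (by omega)
    refine ⟨II (m + 1) * UU m 0, ?_⟩
    linear_combination UU m 0 * this
  have h2 : X ^ (m + 1) ∣ UU m 0 - Iq m * ∑ b ∈ range (m + 1), mot b 0 * Iq b := by
    unfold UU
    rw [mul_sum, ← sum_sub_distrib]
    apply dvd_sum
    intro b hb
    rw [mem_range] at hb
    obtain ⟨c, rfl⟩ := Nat.exists_eq_add_of_le (Nat.lt_succ_iff.1 hb)
    rw [Nat.add_sub_cancel_left]
    obtain ⟨u, hu⟩ := mot_dvd b
    obtain ⟨v, hv⟩ := Iq_cong c b
    refine ⟨- (u * v * Iq b), ?_⟩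
    rw [hu]
    rw [add_comm c b] at hv
    have : (X : ℤ⟦X⟧) ^ (b + c + 1) = X ^ b * X ^ (c + 1) := by ring
    rw [this]
    linear_combination (-(X ^ b * u * Iq b)) * hv
  have h3 := dvd_add h1 h2
  rw [sub_add_sub_cancel] at h3
  have h4 := (X_pow_dvd_iff.1 h3) k (by omega)
  rw [map_sub, sub_eq_zero] at h4
  exact h4

end Pool.Agent.W5h82.Lim
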