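import Pool.Agent.W5h82.Lim.Motz

/-! The recursion for `mot` as a sum over Motzkin paths. -/

open Finset PowerSeries

namespace Pool.Agent.W5h82.Lim

/-- heights of a path that starts at `0` -/
def Valid {b M : ℕ} (h : Fin (b + 1) → Fin M) : Prop :=
  (h 0 : ℕ) = 0 ∧ ∀ i : Fin b, (h i.castSucc : ℕ) ≤ h i.succ + 1 ∧ (h i.succ : ℕ) ≤ h i.castSucc + 1

/-- the exponent of step `i` from height `x` to height `y` -/
def step (i x y : ℕ) : ℕ := i + 1 - if y < x then 0 else y

def wt {b M : ℕ} (h : Fin (b + 1) → Fin M) : ℕ :=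
  ∑ i : Fin b, step i (h i.castSucc) (h i.succ)

lemma valid_snoc {b M : ℕ} (h : Fin (b + 1) → Fin M) (g : Fin M) :
    Valid (Fin.snoc h g : Fin (b + 2) → Fin M) ↔
      Valid h ∧ ((h (Fin.last b) : ℕ) ≤ g + 1 ∧ (g : ℕ) ≤ h (Fin.last b) + 1) := by
  unfold Valid
  rw [Fin.forall_fin_succ']
  have e0 : (Fin.snoc h g : Fin (b + 2) → Fin M) 0 = h 0 := by
    have := Fin.snoc_castSucc (α := fun _ => Fin M) g h 0
    simpa using this
  have e1 : ∀ i : Fin b, (Fin.snoc h g : Fin (b + 2) → Fin M) i.castSucc.succ = h i.succ := by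
    intro i
    rw [Fin.succ_castSucc]
    exact Fin.snoc_castSucc (α := fun _ => Fin M) g h i.succ
  have e2 : ∀ i : Fin (b + 1), (Fin.snoc h g : Fin (b + 2) → Fin M) i.castSucc = h i :=
    fun i => Fin.snoc_castSucc (α := fun _ => Fin M) g h i
  have e3 : (Fin.snoc h g : Fin (b + 2) → Fin M) (Fin.last b).succ = g := by
    rw [Fin.succ_last]
    exact Fin.snoc_last (α := fun _ => Fin M) g h
  simp only [e0, e1, e2, e3, and_assoc]

lemma wt_snoc {b M : ℕ} (h : Fin (b + 1) → Fin M) (g : Fin M) :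
    wt (Fin.snoc h g : Fin (b + 2) → Fin M) = wt h + step b (h (Fin.last b)) g := by
  unfold wt
  rw [Fin.sum_univ_castSucc]
  have e1 : ∀ i : Fin b, (Fin.snoc h g : Fin (b + 2) → Fin M) i.castSucc.succ = h i.succ := by
    intro i
    rw [Fin.succ_castSucc]
    exact Fin.snoc_castSucc (α := fun _ => Fin M) g h i.succ
  have e2 : ∀ i : Fin (b + 1), (Fin.snoc h g : Fin (b + 2) → Fin M) i.castSucc = h i :=
    fun i => Fin.snoc_castSucc (α := fun _ => Fin M) g h i
  have e3 : (Fin.snoc h g : Fin (b + 2) → Fin M) (Fin.last b).succ = g := by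
    rw [Fin.succ_last]
    exact Fin.snoc_last (α := fun _ => Fin M) g h
  simp only [e1, e2, e3, Fin.val_castSucc, Fin.val_last]

open Classical in
noncomputable def SS (M b : ℕ) (g : Fin M) : ℤ⟦X⟧ :=
  ∑ h : Fin (b + 1) → Fin M, if Valid h ∧ h (Fin.last b) = g then X ^ wt h else 0

open Classical in
lemma SS_succ (M b : ℕ) (g : Fin M) :
    SS M (b + 1) g = ∑ x : Fin M,
      (if (x : ℕ) ≤ g + 1 ∧ (g : ℕ) ≤ x + 1 then X ^ step b x g * SS M b x else 0) := by
  have h1 : SS M (b + 1) g = ∑ p : Fin M × (Fin (b + 1) → Fin M),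
      if Valid (Fin.snoc p.2 p.1 : Fin (b + 2) → Fin M) ∧
        (Fin.snoc p.2 p.1 : Fin (b + 2) → Fin M) (Fin.last (b + 1)) = g
      then X ^ wt (Fin.snoc p.2 p.1 : Fin (b + 2) → Fin M) else 0 := by
    unfold SS
    exact (Fintype.sum_equiv (Fin.snocEquiv (fun _ : Fin (b + 2) => Fin M)) _ _ (fun p => rfl)).symm
  rw [h1, Fintype.sum_prod_type]
  have h2 : ∀ (x : Fin M) (h : Fin (b + 1) → Fin M),
      (Fin.snoc h x : Fin (b + 2) → Fin M) (Fin.last (b + 1)) = x :=
    fun x h => Fin.snoc_last (α := fun _ => Fin M) x h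
  simp only [h2, valid_snoc, wt_snoc]
  have h3 : ∀ x : Fin M, x ≠ g → (∑ y : Fin (b + 1) → Fin M,
      if (Valid y ∧ ((y (Fin.last b) : ℕ) ≤ x + 1 ∧ (x : ℕ) ≤ y (Fin.last b) + 1)) ∧ x = g then
        (X : ℤ⟦X⟧) ^ (wt y + step b (y (Fin.last b)) x) else 0) = 0 := by
    intro x hx
    apply sum_eq_zero
    intro y _
    rw [if_neg (fun hh => hx hh.2)]
  rw [Fintype.sum_eq_single g h3]
  unfold SS
  have h4 : ∀ x : Fin M, (if (x : ℕ) ≤ g + 1 ∧ (g : ℕ) ≤ x + 1 then (X : ℤ⟦X⟧) ^ step b x g *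
      (∑ h : Fin (b + 1) → Fin M, if Valid h ∧ h (Fin.last b) = x then X ^ wt h else 0) else 0) =
      ∑ h : Fin (b + 1) → Fin M, if h (Fin.last b) = x then
        (if (Valid h ∧ ((h (Fin.last b) : ℕ) ≤ g + 1 ∧ (g : ℕ) ≤ h (Fin.last b) + 1)) ∧ g = g then
          X ^ (wt h + step b (h (Fin.last b)) g) else 0) else 0 := by
    intro x
    rw [mul_sum]
    by_cases hx : (x : ℕ) ≤ g + 1 ∧ (g : ℕ) ≤ x + 1
    · rw [if_pos hx]
      apply sum_congr rfl
      intro h _
      by_cases hh : h (Fin.last b) = x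
      · subst hh
        by_cases hv : Valid h
        · rw [if_pos ⟨hv, rfl⟩, if_pos rfl, if_pos ⟨⟨hv, hx⟩, rfl⟩]
          ring
        · rw [if_neg (fun h5 => hv h5.1), if_pos rfl, if_neg (fun h5 => hv h5.1.1), mul_zero]
      · rw [if_neg (fun h5 => hh h5.2), if_neg hh, mul_zero]
    · rw [if_neg hx]
      symm
      apply sum_eq_zero
      intro h _
      by_cases hh : h (Fin.last b) = x
      · subst hh
        rw [if_pos rfl, if_neg (fun h5 => hx h5.1.2)]
      · rw [if_neg hh]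
  simp only [h4]
  rw [sum_comm]
  apply sum_congr rfl
  intro h _
  rw [Finset.sum_ite_eq]
  simp

lemma SS_eq (M b : ℕ) (hb : b < M) (g : Fin M) : SS M b g = mot b g := by
  classical
  induction b generalizing g with
  | zero =>
    unfold SS
    have h0 : ∀ h : Fin (0 + 1) → Fin M, (if Valid h ∧ h (Fin.last 0) = g then (X : ℤ⟦X⟧) ^ wt h else 0) =
        if h = (fun _ => g) then (if (g : ℕ) = 0 then 1 else 0) else 0 := by
      intro h
      by_cases hh : h = fun _ => g
      · subst hh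
        rw [if_pos rfl]
        by_cases hg : (g : ℕ) = 0
        · rw [if_pos hg, if_pos ⟨⟨hg, fun i => i.elim0⟩, rfl⟩]
          simp [wt]
        · rw [if_neg hg, if_neg (fun h5 => hg h5.1.1)]
      · rw [if_neg hh, if_neg]
        rintro ⟨_, h5⟩
        apply hh
        funext i
        rw [← h5]
        congr 1
        exact Subsingleton.elim (α := Fin 1) _ _
    rw [sum_congr rfl (fun h _ => h0 h), Finset.sum_ite_eq']
    simp [mot]
  | succ b ih =>
    rw [SS_succ]
    have h1 : ∀ x : Fin M, (if (x : ℕ) ≤ g + 1 ∧ (g : ℕ) ≤ x + 1 then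
        (X : ℤ⟦X⟧) ^ step b x g * SS M b x else 0) =
        (fun x : ℕ => if x ≤ g + 1 ∧ (g : ℕ) ≤ x + 1 then (X : ℤ⟦X⟧) ^ step b x g * mot b x else 0) x := by
      intro x
      rw [ih (by omega)]
    rw [sum_congr rfl (fun x _ => h1 x),
      Fin.sum_univ_eq_sum_range (fun x : ℕ => if x ≤ g + 1 ∧ (g : ℕ) ≤ x + 1 then
        (X : ℤ⟦X⟧) ^ step b x g * mot b x else 0)]
    have h2 : ∑ x ∈ range M, (if x ≤ g + 1 ∧ (g : ℕ) ≤ x + 1 then
        (X : ℤ⟦X⟧) ^ step b x g * mot b x else 0) = ∑ x ∈ range (M + 2), (if x ≤ g + 1 ∧ (g : ℕ) ≤ x + 1 then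
        (X : ℤ⟦X⟧) ^ step b x g * mot b x else 0) := by
      apply sum_subset
      · intro x hx
        rw [mem_range] at *
        omega
      · intro x _ hx
        rw [mem_range] at hx
        rw [mot_vanish b x (by omega), mul_zero, ite_self]
    rw [h2]
    have hg := g.2
    rcases Nat.eq_zero_or_pos (g : ℕ) with h0 | h0
    · rw [h0]
      have h3 : ∑ x ∈ range (M + 2), (if x ≤ 0 + 1 ∧ (0 : ℕ) ≤ x + 1 then
        (X : ℤ⟦X⟧) ^ step b x 0 * mot b x else 0) = ∑ x ∈ range 2, (if x ≤ 0 + 1 ∧ (0 : ℕ) ≤ x + 1 then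
        (X : ℤ⟦X⟧) ^ step b x 0 * mot b x else 0) := by
        symm
        apply sum_subset
        · intro x hx
          rw [mem_range] at *
          omega
        · intro x _ hx
          rw [mem_range] at hx
          rw [if_neg (by omega)]
      rw [h3, sum_range_succ, sum_range_one]
      simp [step, mot]
      ring
    · obtain ⟨y, hy⟩ : ∃ y, (g : ℕ) = y + 1 := ⟨g - 1, by omega⟩
      rw [hy]
      have h3 : ∑ x ∈ range (M + 2), (if x ≤ y + 1 + 1 ∧ y + 1 ≤ x + 1 then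
        (X : ℤ⟦X⟧) ^ step b x (y + 1) * mot b x else 0) = ∑ x ∈ ({y, y + 1, y + 2} : Finset ℕ),
          (if x ≤ y + 1 + 1 ∧ y + 1 ≤ x + 1 then
        (X : ℤ⟦X⟧) ^ step b x (y + 1) * mot b x else 0) := by
        symm
        apply sum_subset
        · intro x hx
          simp only [mem_insert, mem_singleton] at hx
          rw [mem_range]
          omega
        · intro x _ hx
          simp only [mem_insert, mem_singleton] at hx
          rw [if_neg (by omega)]
      rw [h3, sum_insert (by simp), sum_insert (by simp), sum_singleton,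
        if_pos ⟨by omega, by omega⟩, if_pos ⟨by omega, by omega⟩, if_pos ⟨by omega, by omega⟩]
      simp only [step, mot]
      rw [if_neg (by omega), if_neg (by omega), if_pos (by omega), Nat.add_sub_add_right, Nat.sub_zero]
      ring

/-- a Motzkin path of length `b`, by its heights -/
def IsMotzkin {b : ℕ} (h : Fin (b + 1) → Fin (b + 1)) : Prop :=
  h 0 = 0 ∧ h (Fin.last b) = 0 ∧
    ∀ i : Fin b, (h i.castSucc : ℕ) ≤ h i.succ + 1 ∧ (h i.succ : ℕ) ≤ h i.castSucc + 1

open Classical in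
lemma mot_eq (b : ℕ) : mot b 0 = ∑ h : Fin (b + 1) → Fin (b + 1),
    if IsMotzkin h then X ^ (∑ i : Fin b, ((i : ℕ) + 1 -
      if h i.succ < h i.castSucc then 0 else (h i.succ : ℕ))) else 0 := by
  have h1 := SS_eq (b + 1) b (Nat.lt_succ_self b) 0
  rw [Fin.val_zero] at h1
  rw [← h1]
  unfold SS
  apply sum_congr rfl
  intro h _
  have h2 : (Valid h ∧ h (Fin.last b) = 0) ↔ IsMotzkin h := by
    unfold Valid IsMotzkin
    constructor
    · rintro ⟨⟨a, c⟩, d⟩
      exact ⟨Fin.ext a, d, c⟩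
    · rintro ⟨a, d, c⟩
      exact ⟨⟨by rw [a]; rfl, c⟩, d⟩
  simp only [h2]
  rfl

end Pool.Agent.W5h82.Lim
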