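import Mathlib

/-! Permutations avoiding 1243: removing the first entry. -/

open Finset Equiv

namespace Pool.Agent.W5h82.Lim

/-- number of inversions -/
def inv {n : ℕ} (π : Perm (Fin n)) : ℕ :=
  (univ.filter (fun p : Fin n × Fin n => p.1 < p.2 ∧ π p.2 < π p.1)).card

/-- no pattern 1243 -/
def Avoids {n : ℕ} (π : Perm (Fin n)) : Prop :=
  ¬ ∃ a b c d : Fin n, a < b ∧ b < c ∧ c < d ∧ π a < π b ∧ π b < π d ∧ π d < π c

/-- the entries with value at least `c` avoid 132 -/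
def B {n : ℕ} (c : ℕ) (π : Perm (Fin n)) : Prop :=
  ∀ i j k : Fin n, i < j → j < k → c ≤ (π i : ℕ) → π i < π k → ¬ π k < π j

/-- the entries with value at least `d` are increasing -/
def C {n : ℕ} (d : ℕ) (π : Perm (Fin n)) : Prop :=
  ∀ i j : Fin n, i < j → d ≤ (π j : ℕ) → ¬ π j < π i

lemma B_mono {n : ℕ} {c c' : ℕ} (h : c ≤ c') {π : Perm (Fin n)} (hB : B c π) : B c' π :=
  fun i j k hij hjk hc => hB i j k hij hjk (h.trans hc)

lemma C_mono {n : ℕ} {c c' : ℕ} (h : c ≤ c') {π : Perm (Fin n)} (hC : C c π) : C c' π :=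
  fun i j hij hc => hC i j hij (h.trans hc)

lemma C_B {n : ℕ} {c : ℕ} {π : Perm (Fin n)} (hC : C c π) : B c π :=
  fun i j k _ hjk hc hik => hC j k hjk (hc.trans (by exact_mod_cast hik.le))

/-- put `e` in front of a permutation -/
def consFun {n : ℕ} (e : Fin (n + 1)) (σ : Perm (Fin n)) : Fin (n + 1) → Fin (n + 1) :=
  Fin.cons e (fun i => e.succAbove (σ i))

lemma consFun_inj {n : ℕ} (e : Fin (n + 1)) (σ : Perm (Fin n)) :
    Function.Injective (consFun e σ) := by
  unfold consFun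
  rw [Fin.cons_injective_iff]
  refine ⟨?_, ?_⟩
  · rintro ⟨i, hi⟩
    exact Fin.succAbove_ne e _ hi
  · exact (Fin.succAbove_right_injective (p := e)).comp σ.injective

noncomputable def consPerm {n : ℕ} (e : Fin (n + 1)) (σ : Perm (Fin n)) : Perm (Fin (n + 1)) :=
  Equiv.ofBijective (consFun e σ) (Finite.injective_iff_bijective.1 (consFun_inj e σ))

@[simp] lemma consPerm_zero {n : ℕ} (e : Fin (n + 1)) (σ : Perm (Fin n)) :
    consPerm e σ 0 = e := rfl

@[simp] lemma consPerm_succ {n : ℕ} (e : Fin (n + 1)) (σ : Perm (Fin n)) (i : Fin n) :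
    consPerm e σ i.succ = e.succAbove (σ i) := rfl

lemma consPerm_bij {n : ℕ} :
    Function.Bijective (fun p : Fin (n + 1) × Perm (Fin n) => consPerm p.1 p.2) := by
  rw [Fintype.bijective_iff_injective_and_card]
  refine ⟨?_, ?_⟩
  · rintro ⟨e, σ⟩ ⟨e', σ'⟩ h
    have h' : consPerm e σ = consPerm e' σ' := h
    have h0 : e = e' := by
      have := congrArg (fun π : Perm (Fin (n + 1)) => π 0) h'
      simpa using this
    subst h0
    have h1 : σ = σ' := by
      ext i
      have := congrArg (fun π : Perm (Fin (n + 1)) => π i.succ) h'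
      simp only [consPerm_succ] at this
      rw [Fin.succAbove_right_injective this]
    rw [h1]
  · simp [Fintype.card_perm, Nat.factorial_succ]

/-- the value of `e.succAbove v` -/
lemma succAbove_val {n : ℕ} (e : Fin (n + 1)) (v : Fin n) :
    (e.succAbove v : ℕ) = if (v : ℕ) < e then (v : ℕ) else v + 1 := by
  unfold Fin.succAbove
  simp only [Fin.lt_def, Fin.val_castSucc]
  split_ifs <;> simp

lemma succAbove_lt_iff {n : ℕ} (e : Fin (n + 1)) (u v : Fin n) :
    e.succAbove u < e.succAbove v ↔ u < v := (Fin.strictMono_succAbove e).lt_iff_lt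

lemma succAbove_ge {n : ℕ} (e : Fin (n + 1)) (v : Fin n) : e < e.succAbove v ↔ (e : ℕ) ≤ v := by
  rw [Fin.lt_def, succAbove_val]
  split_ifs <;> omega

lemma succAbove_le {n : ℕ} (e : Fin (n + 1)) (v : Fin n) : e.succAbove v < e ↔ (v : ℕ) < e := by
  rw [Fin.lt_def, succAbove_val]
  split_ifs <;> omega

lemma inv_eq {n : ℕ} (π : Perm (Fin n)) :
    inv π = ∑ i : Fin n, ∑ j : Fin n, if i < j ∧ π j < π i then 1 else 0 := by
  unfold inv
  rw [card_filter, Fintype.sum_prod_type]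

lemma card_lt {n : ℕ} (e : Fin (n + 1)) : (univ.filter (fun v : Fin n => (v : ℕ) < e)).card = e := by
  have := e.is_le
  rw [Fin.card_filter_val_lt]
  omega

lemma inv_cons {n : ℕ} (e : Fin (n + 1)) (σ : Perm (Fin n)) :
    inv (consPerm e σ) = e + inv σ := by
  rw [inv_eq, inv_eq, Fin.sum_univ_succ]
  congr 1
  · rw [Fin.sum_univ_succ]
    simp only [lt_self_iff_false, false_and, if_false, consPerm_zero, consPerm_succ, zero_add,
      Fin.succ_pos, true_and, succAbove_le]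
    rw [Equiv.sum_comp σ (fun v => if (v : ℕ) < e then 1 else 0), ← card_filter, card_lt]
  · apply sum_congr rfl
    intro i _
    rw [Fin.sum_univ_succ]
    simp [succAbove_lt_iff]

lemma avoids_cons {n : ℕ} (e : Fin (n + 1)) (σ : Perm (Fin n)) :
    Avoids (consPerm e σ) ↔ Avoids σ ∧ B e σ := by
  constructor
  · intro h
    refine ⟨?_, ?_⟩
    · rintro ⟨a, b, c, d, hab, hbc, hcd, h1, h2, h3⟩
      refine h ⟨a.succ, b.succ, c.succ, d.succ, by simpa, by simpa, by simpa, ?_, ?_, ?_⟩ <;>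
        simpa [succAbove_lt_iff]
    · intro i j k hij hjk hc hik hkj
      refine h ⟨0, i.succ, j.succ, k.succ, by simp, by simpa, by simpa, ?_, ?_, ?_⟩
      · simpa [succAbove_ge] using hc
      · simpa [succAbove_lt_iff]
      · simpa [succAbove_lt_iff]
  · rintro ⟨hA, hB⟩ ⟨a, b, c, d, hab, hbc, hcd, h1, h2, h3⟩
    obtain ⟨b, rfl⟩ := Fin.exists_succ_eq.2 (ne_of_gt (lt_of_le_of_lt (Fin.zero_le a) hab))
    obtain ⟨c, rfl⟩ := Fin.exists_succ_eq.2 (ne_of_gt (lt_of_le_of_lt (Fin.zero_le _) hbc))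
    obtain ⟨d, rfl⟩ := Fin.exists_succ_eq.2 (ne_of_gt (lt_of_le_of_lt (Fin.zero_le _) hcd))
    simp only [consPerm_succ, succAbove_lt_iff, Fin.succ_lt_succ_iff] at h2 h3 hbc hcd
    rcases Fin.eq_zero_or_eq_succ a with rfl | ⟨a, rfl⟩
    · simp only [consPerm_zero, consPerm_succ, succAbove_ge] at h1
      exact hB b c d hbc hcd h1 h2 h3
    · simp only [consPerm_succ, succAbove_lt_iff, Fin.succ_lt_succ_iff] at h1 hab
      exact hA ⟨a, b, c, d, hab, hbc, hcd, h1, h2, h3⟩

lemma ge_of_lt {n : ℕ} (e : Fin (n + 1)) (v : Fin n) {c : ℕ} (h : (e : ℕ) < c) :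
    c ≤ (e.succAbove v : ℕ) ↔ c - 1 ≤ v := by
  rw [succAbove_val]; split_ifs <;> omega

lemma ge_of_ge {n : ℕ} (e : Fin (n + 1)) (v : Fin n) {c : ℕ} (h : c ≤ (e : ℕ)) :
    c ≤ (e.succAbove v : ℕ) ↔ c ≤ v := by
  rw [succAbove_val]; split_ifs <;> omega

lemma B_cons_lt {n : ℕ} (e : Fin (n + 1)) (σ : Perm (Fin n)) {c : ℕ} (h : (e : ℕ) < c) :
    B c (consPerm e σ) ↔ B (c - 1) σ := by
  constructor
  · intro hB i j k hij hjk hc hik hkj
    exact hB i.succ j.succ k.succ (by simpa) (by simpa) (by simpa [ge_of_lt e _ h] using hc)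
      (by simpa [succAbove_lt_iff]) (by simpa [succAbove_lt_iff])
  · intro hB i j k hij hjk hc hik hkj
    obtain ⟨j, rfl⟩ := Fin.exists_succ_eq.2 (ne_of_gt (lt_of_le_of_lt (Fin.zero_le i) hij))
    obtain ⟨k, rfl⟩ := Fin.exists_succ_eq.2 (ne_of_gt (lt_of_le_of_lt (Fin.zero_le _) hjk))
    rcases Fin.eq_zero_or_eq_succ i with rfl | ⟨i, rfl⟩
    · simp only [consPerm_zero] at hc
      omega
    · simp only [consPerm_succ, succAbove_lt_iff, Fin.succ_lt_succ_iff, ge_of_lt e _ h] at hij hjk hc hik hkj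
      exact hB i j k hij hjk hc hik hkj

lemma B_cons_ge {n : ℕ} (e : Fin (n + 1)) (σ : Perm (Fin n)) {c : ℕ} (h : c ≤ (e : ℕ)) :
    B c (consPerm e σ) ↔ B c σ ∧ C e σ := by
  constructor
  · intro hB
    refine ⟨?_, ?_⟩
    · intro i j k hij hjk hc hik hkj
      exact hB i.succ j.succ k.succ (by simpa) (by simpa) (by simpa [ge_of_ge e _ h] using hc)
        (by simpa [succAbove_lt_iff]) (by simpa [succAbove_lt_iff])
    · intro j k hjk hc hkj
      exact hB 0 j.succ k.succ (by simp) (by simpa) (by simpa using h)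
        (by simpa [succAbove_ge] using hc) (by simpa [succAbove_lt_iff])
  · rintro ⟨hB, hC⟩ i j k hij hjk hc hik hkj
    obtain ⟨j, rfl⟩ := Fin.exists_succ_eq.2 (ne_of_gt (lt_of_le_of_lt (Fin.zero_le i) hij))
    obtain ⟨k, rfl⟩ := Fin.exists_succ_eq.2 (ne_of_gt (lt_of_le_of_lt (Fin.zero_le _) hjk))
    rcases Fin.eq_zero_or_eq_succ i with rfl | ⟨i, rfl⟩
    · simp only [consPerm_zero, consPerm_succ, succAbove_ge, succAbove_lt_iff,
        Fin.succ_lt_succ_iff] at hik hkj hjk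
      exact hC j k hjk hik hkj
    · simp only [consPerm_succ, succAbove_lt_iff, Fin.succ_lt_succ_iff, ge_of_ge e _ h] at hij hjk hc hik hkj
      exact hB i j k hij hjk hc hik hkj

lemma C_cons_lt {n : ℕ} (e : Fin (n + 1)) (σ : Perm (Fin n)) {d : ℕ} (h : (e : ℕ) < d) :
    C d (consPerm e σ) ↔ C (d - 1) σ := by
  constructor
  · intro hC i j hij hc hji
    exact hC i.succ j.succ (by simpa) (by simpa [ge_of_lt e _ h] using hc)
      (by simpa [succAbove_lt_iff])
  · intro hC i j hij hc hji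
    obtain ⟨j, rfl⟩ := Fin.exists_succ_eq.2 (ne_of_gt (lt_of_le_of_lt (Fin.zero_le i) hij))
    rcases Fin.eq_zero_or_eq_succ i with rfl | ⟨i, rfl⟩
    · simp only [consPerm_zero, Fin.lt_def] at hji
      omega
    · simp only [consPerm_succ, succAbove_lt_iff, Fin.succ_lt_succ_iff, ge_of_lt e _ h] at hij hc hji
      exact hC i j hij hc hji

lemma C_cons_eq {n : ℕ} (e : Fin (n + 1)) (σ : Perm (Fin n)) {d : ℕ} (h : (e : ℕ) = d) :
    C d (consPerm e σ) ↔ C d σ := by
  constructor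
  · intro hC i j hij hc hji
    exact hC i.succ j.succ (by simpa) (by simpa [ge_of_ge e _ h.ge] using hc)
      (by simpa [succAbove_lt_iff])
  · intro hC i j hij hc hji
    obtain ⟨j, rfl⟩ := Fin.exists_succ_eq.2 (ne_of_gt (lt_of_le_of_lt (Fin.zero_le i) hij))
    rcases Fin.eq_zero_or_eq_succ i with rfl | ⟨i, rfl⟩
    · simp only [consPerm_zero, Fin.lt_def] at hji
      omega
    · simp only [consPerm_succ, succAbove_lt_iff, Fin.succ_lt_succ_iff, ge_of_ge e _ h.ge] at hij hc hji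
      exact hC i j hij hc hji

lemma C_cons_gt {n : ℕ} (e : Fin (n + 1)) (σ : Perm (Fin n)) {d : ℕ} (h : d < (e : ℕ)) :
    ¬ C d (consPerm e σ) := by
  intro hC
  have hd : d < n := lt_of_lt_of_le h e.is_le
  refine hC 0 (σ.symm ⟨d, hd⟩).succ (by simp) ?_ ?_
  · simp only [consPerm_succ, Equiv.apply_symm_apply, ge_of_ge e _ h.le, le_refl]
  · simp only [consPerm_succ, Equiv.apply_symm_apply, consPerm_zero, succAbove_le]
    exact h

end Pool.Agent.W5h82.Lim
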