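import Pool.Agent.W5h82.Lim.Count

/-! The series `G` in terms of a recursion by values. -/

open Finset PowerSeries

namespace Pool.Agent.W5h82.Lim

/-- one step without a left-to-right minimum: `f` holds the state without, `g` the state with a
hit; `b` tells whether the weight is one -/
noncomputable def WW (f g : ℕ → ℤ⟦X⟧) (n : ℕ) : ℕ → Bool → ℕ → ℤ⟦X⟧
  | 0, false, h => f h
  | 0, true, h => g h
  | m + 1, b, h => WW f g n m false h +
      (if b then 1 else X ^ (n + m + 1)) * WW f g n m true (h + 1)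

/-- the states by value; index `h + 1` stands for the height `h`, index `0` for `-1` -/
noncomputable def P : ℕ → Bool → ℕ → ℤ⟦X⟧
  | 0, _, h => if h = 1 then 1 else 0
  | _ + 1, _, 0 => 0
  | n + 1, b, h + 1 => WW (P n false) (P n true) n 1 b (h + 1) +
      X ^ (n + 1) * WW (P n false) (P n true) n 1 b h

noncomputable def W (n m : ℕ) (b : Bool) (h : ℕ) : ℤ⟦X⟧ := WW (P n false) (P n true) n m b h

lemma W_zero (n : ℕ) (b : Bool) (h : ℕ) : W n 0 b h = P n b h := by
  cases b <;> rfl

lemma W_succ (n m : ℕ) (b : Bool) (h : ℕ) :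
    W n (m + 1) b h = W n m false h + (if b then 1 else X ^ (n + m + 1)) * W n m true (h + 1) := rfl

lemma P_z (n : ℕ) (b : Bool) : P n b 0 = 0 := by
  cases n <;> simp [P]

lemma P_zero (b : Bool) (h : ℕ) : P 0 b h = if h = 1 then 1 else 0 := by
  simp [P]

lemma P_succ (n : ℕ) (b : Bool) (h : ℕ) :
    P (n + 1) b (h + 1) = W n 1 b (h + 1) + X ^ (n + 1) * W n 1 b h := by
  simp only [P, W]

lemma W_star (n m : ℕ) (b : Bool) (h : ℕ) :
    W (n + 1) m b (h + 1) = W n (m + 1) b (h + 1) + X ^ (n + 1) * W n (m + 1) b h := by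
  induction m generalizing b h with
  | zero => rw [W_zero, P_succ]
  | succ m ih =>
    rw [W_succ, ih, ih, W_succ n (m + 1), W_succ n (m + 1),
      show n + 1 + m + 1 = n + (m + 1) + 1 by ring]
    ring

lemma W_base (m : ℕ) (b : Bool) (h : ℕ) : W 0 m b (h + 1) = if h = 0 then 1 else 0 := by
  induction m generalizing b h with
  | zero => rw [W_zero, P_zero]; simp
  | succ m ih =>
    rw [W_succ, ih, ih]
    simp

/-- the numerators -/
noncomputable def H (c d : ℕ) : ℤ⟦X⟧ :=
  match c with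
  | 0 => 1
  | n + 1 => W n (d - n) true 0

/-- the sums over the next left-to-right minimum; here `K n u` has `c = n + 1` -/
noncomputable def KK (n u : ℕ) : ℤ⟦X⟧ := W n (u - (n + 1)) true 1

lemma H_diag (n : ℕ) : H (n + 1) (n + 1) = P n true 1 := by
  have : n + 1 - n = 1 := by omega
  simp only [H, this]
  rw [W_succ, W_zero, W_zero, P_z]
  simp

lemma KK_diag (n : ℕ) : KK n (n + 1) = P n true 1 := by
  unfold KK
  rw [Nat.sub_self, W_zero]

lemma H_step (n d : ℕ) (h : n + 1 ≤ d) :
    H (n + 1) (d + 1) = H (n + 1) d + KK n (d + 1) - (1 - X ^ d) * KK n d := by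
  obtain ⟨m, rfl⟩ := Nat.exists_eq_add_of_le h
  have e1 : n + 1 + m + 1 - n = m + 1 + 1 := by omega
  have e2 : n + 1 + m - n = m + 1 := by omega
  have e3 : n + 1 + m + 1 - (n + 1) = m + 1 := by omega
  have e4 : n + 1 + m - (n + 1) = m := by omega
  simp only [H, KK, e1, e2, e3, e4]
  simp only [W_succ, if_true, Bool.false_eq_true, if_false]
  ring

lemma KK_sum (n u : ℕ) (h : n + 1 ≤ u) : KK n u = ∑ e ∈ range (n + 1), X ^ e * H e (u - 1) := by
  induction n with
  | zero =>
    rw [sum_range_one]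
    unfold KK
    rw [W_base]
    simp [H]
  | succ n ih =>
    rw [sum_range_succ, ← ih (by omega)]
    unfold KK
    have e1 : u - (n + 1) = u - (n + 1 + 1) + 1 := by omega
    rw [W_star n _ true 0, e1]
    congr 2
    simp only [H]
    congr 1
    omega

/-- `1 / (1 - X ^ m)` -/
noncomputable def II (m : ℕ) : ℤ⟦X⟧ := mk fun n => if m ∣ n then 1 else 0

lemma II_mul (m : ℕ) (hm : 1 ≤ m) : (1 - X ^ m) * II m = 1 := by
  ext n
  rw [sub_mul, one_mul, map_sub, coeff_X_pow_mul', coeff_one]
  unfold II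
  rw [coeff_mk]
  rcases Nat.eq_zero_or_pos n with rfl | hn
  · simp
    omega
  · rw [if_neg hn.ne']
    by_cases h : m ≤ n
    · rw [if_pos h, coeff_mk]
      have h5 : m ∣ n - m ↔ m ∣ n := by
        constructor
        · intro hh
          have := Nat.dvd_add hh (dvd_refl m)
          rwa [Nat.sub_add_cancel h] at this
        · intro hh
          exact Nat.dvd_sub hh (dvd_refl m)
      simp only [h5, sub_self]
    · rw [if_neg h, if_neg (fun h2 => h (Nat.le_of_dvd hn h2))]
      simp

/-- `1 / ((1 - X) ⋯ (1 - X ^ d))` -/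
noncomputable def Iq (d : ℕ) : ℤ⟦X⟧ := ∏ i ∈ range d, II (i + 1)

lemma Iq_succ (d : ℕ) : (1 - X ^ (d + 1)) * Iq (d + 1) = Iq d := by
  unfold Iq
  rw [prod_range_succ]
  linear_combination (∏ i ∈ range d, II (i + 1)) * II_mul (d + 1) (by omega)

lemma Iq_zero : Iq 0 = 1 := by simp [Iq]

lemma H_sum (n d : ℕ) (h : n + 1 ≤ d) :
    H (n + 1) d * Iq (d - 1) = KK n d * Iq (d - 1) + ∑ e ∈ Ico (n + 1) d, X ^ e * (H (n + 1) e * Iq e) := by
  induction d, h using Nat.le_induction with
  | base => rw [H_diag, KK_diag]; simp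
  | succ d hd ih =>
    rw [sum_Ico_succ_top hd, H_step n d hd]
    obtain ⟨e, rfl⟩ : ∃ e, d = e + 1 := ⟨d - 1, by omega⟩
    simp only [Nat.add_sub_cancel] at *
    have h1 := Iq_succ e
    linear_combination ih + (H (n + 1) (e + 1) - KK n (e + 1)) * h1

lemma Iq_sum (d : ℕ) : Iq d = 1 + ∑ e ∈ range d, X ^ (e + 1) * Iq (e + 1) := by
  induction d with
  | zero => simp [Iq_zero]
  | succ d ih =>
    rw [sum_range_succ]
    have h1 := Iq_succ d
    linear_combination ih + h1

theorem isG : IsG (fun c d => H c d * Iq d) := by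
  refine ⟨by simp [H, Iq_zero], ?_⟩
  intro c d hcd hd
  obtain ⟨e, rfl⟩ : ∃ e, d = e + 1 := ⟨d - 1, by omega⟩
  have h1 := Iq_succ e
  cases c with
  | zero =>
    simp only [H, range_zero, sum_empty, zero_add, one_mul, h1]
    rw [← range_eq_Ico, sum_range_succ', pow_zero, one_mul, Iq_zero, Iq_sum e]
    ring
  | succ n =>
    simp only
    have h2 := H_sum n (e + 1) hcd
    have h3 := KK_sum n (e + 1) hcd
    simp only [Nat.add_sub_cancel] at *
    have h4 : ∑ x ∈ range (n + 1), X ^ x * (H x e * Iq e) = KK n (e + 1) * Iq e := by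
      rw [h3, sum_mul]
      apply sum_congr rfl
      intro x _
      ring
    rw [h4, ← h2]
    linear_combination H (n + 1) (e + 1) * h1

/-- the count in terms of the recursion by values -/
theorem av_eq_P (n k m : ℕ) (hm : k ≤ m) (hn : k + 2 ≤ n) :
    (av n k : ℤ) = coeff k (P m true 1 * Iq (m + 1)) := by
  rw [av_eq isG n k (m + 1) (by omega) hn, H_diag]

end Pool.Agent.W5h82.Lim
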